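import Mathlib

/-!
# Multiquadratic extensions

`N = E (y_1, …, y_r)`, `y_i ^ 2 = a_i ∈ E`, of degree `2 ^ r`.
-/

set_option autoImplicit false

namespace Pool.Agent.Helper98.IR

open Polynomial

section

variable {E N : Type*} [Field E] [Field N] [Algebra E N] [CharZero E] {r : ℕ} {y : Fin r → N} {a : Fin r → E}

theorem isGalois_of (hy : ∀ i, y i ^ 2 = algebraMap E N (a i))
    (hgen : IntermediateField.adjoin E (Set.range y) = ⊤) : IsGalois E N ∧ FiniteDimensional E N := by
  classical
  have hint : ∀ x ∈ Set.range y, IsIntegral E x := by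
    rintro _ ⟨i, rfl⟩
    refine ⟨X ^ 2 - C (a i), monic_X_pow_sub_C _ two_ne_zero, ?_⟩
    rw [eval₂_sub, eval₂_X_pow, eval₂_C, hy, sub_self]
  have hfd : FiniteDimensional E N := by
    have h1 : FiniteDimensional E (IntermediateField.adjoin E (Set.range y)) :=
      IntermediateField.finiteDimensional_adjoin hint
    rw [hgen] at h1
    exact LinearEquiv.finiteDimensional (IntermediateField.topEquiv (F := E) (E := N)).toLinearEquiv
  set p : E[X] := ∏ i, (X ^ 2 - C (a i)) with hp
  have hp0 : p.map (algebraMap E N) = ∏ i, ((X - C (y i)) * (X + C (y i))) := by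
    rw [hp, Polynomial.map_prod]
    refine Finset.prod_congr rfl fun i _ => ?_
    rw [Polynomial.map_sub, Polynomial.map_pow, map_X, map_C, ← hy i, C_pow]
    ring
  have hsf : p.IsSplittingField E N := by
    refine ⟨?_, ?_⟩
    · rw [hp0]
      refine Splits.prod fun i _ => ?_
      have e : (X + C (y i) : N[X]) = X - C (- y i) := by rw [C_neg, sub_neg_eq_add]
      rw [e]
      exact (Splits.X_sub_C _).mul (Splits.X_sub_C _)
    · have h1 : Set.range y ⊆ (p.rootSet N : Set N) := by
        rintro _ ⟨i, rfl⟩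
        rw [mem_rootSet']
        refine ⟨?_, ?_⟩
        · rw [hp0]
          refine Finset.prod_ne_zero_iff.mpr fun j _ => mul_ne_zero (X_sub_C_ne_zero _) ?_
          have e : (X + C (y j) : N[X]) = X - C (- y j) := by rw [C_neg, sub_neg_eq_add]
          rw [e]
          exact X_sub_C_ne_zero _
        · rw [← eval_map_algebraMap, hp0, eval_prod]
          refine Finset.prod_eq_zero (Finset.mem_univ i) ?_
          simp
      have h2 : (IntermediateField.adjoin E (Set.range y)).toSubalgebra = Algebra.adjoin E (Set.range y) := by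
        refine IntermediateField.adjoin_toSubalgebra_of_isAlgebraic ?_
        exact fun x hx => (hint x hx).isAlgebraic
      rw [hgen] at h2
      rw [eq_top_iff]
      refine le_trans ?_ (Algebra.adjoin_mono h1)
      rw [← h2]
      exact le_rfl
  have hn : Normal E N := Normal.of_isSplittingField p
  exact ⟨⟨⟩, hfd⟩

theorem exists_sign' (hy : ∀ i, y i ^ 2 = algebraMap E N (a i))
    (hgen : IntermediateField.adjoin E (Set.range y) = ⊤) (hdeg : Module.finrank E N = 2 ^ r)
    (ε : Fin r → ℤˣ) : ∃ σ : N ≃ₐ[E] N, (∀ i, σ (y i) = ((ε i : ℤ) : N) * y i) ∧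
      ∀ i, ε i = -1 → σ (y i) ≠ y i := by
  classical
  obtain ⟨hG, hfd⟩ := isGalois_of hy hgen
  have hpm : ∀ (σ : N ≃ₐ[E] N) i, σ (y i) = y i ∨ σ (y i) = - y i := by
    intro σ i
    have h1 : σ (y i) ^ 2 = y i ^ 2 := by rw [← map_pow, hy, AlgEquiv.commutes]
    exact sq_eq_sq_iff_eq_or_eq_neg.mp h1
  let s : (N ≃ₐ[E] N) → (Fin r → ℤˣ) := fun σ i => if σ (y i) = y i then 1 else -1
  have hs : ∀ σ i, σ (y i) = ((s σ i : ℤ) : N) * y i := by
    intro σ i
    by_cases h : σ (y i) = y i
    · have e : s σ i = 1 := if_pos h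
      rw [e, h]
      simp
    · have e : s σ i = -1 := if_neg h
      rw [e, (hpm σ i).resolve_left h]
      simp
  have hinj : Function.Injective s := by
    intro σ τ h
    apply AlgEquiv.ext
    intro z
    have hz : z ∈ IntermediateField.adjoin E (Set.range y) := by
      rw [hgen]
      exact IntermediateField.mem_top
    induction hz using IntermediateField.adjoin_induction with
    | mem z hz =>
      obtain ⟨i, rfl⟩ := hz
      rw [hs, hs, h]
    | algebraMap c => rw [AlgEquiv.commutes, AlgEquiv.commutes]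
    | add z w _ _ hz hw => rw [map_add, map_add, hz, hw]
    | inv z _ hz => rw [map_inv₀, map_inv₀, hz]
    | mul z w _ _ hz hw => rw [map_mul, map_mul, hz, hw]
  have hcard : Fintype.card (N ≃ₐ[E] N) = Fintype.card (Fin r → ℤˣ) := by
    rw [← Nat.card_eq_fintype_card, IsGalois.card_aut_eq_finrank, hdeg, Fintype.card_fun, Fintype.card_fin,
      Fintype.card_units_int]
  have hbij := (Fintype.bijective_iff_injective_and_card s).mpr ⟨hinj, hcard⟩
  obtain ⟨σ, hσ⟩ := hbij.2 ε
  refine ⟨σ, fun i => by rw [hs, hσ], fun i hi h => ?_⟩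
  have e : s σ i = 1 := if_pos h
  rw [hσ, hi] at e
  exact absurd e (by decide)

theorem exists_sign (hy : ∀ i, y i ^ 2 = algebraMap E N (a i))
    (hgen : IntermediateField.adjoin E (Set.range y) = ⊤) (hdeg : Module.finrank E N = 2 ^ r)
    (ε : Fin r → ℤˣ) : ∃ σ : N ≃ₐ[E] N, ∀ i, σ (y i) = ((ε i : ℤ) : N) * y i := by
  obtain ⟨σ, h, -⟩ := exists_sign' hy hgen hdeg ε
  exact ⟨σ, h⟩

end

section

variable {k E N : Type*} [Field k] [Field E] [Field N] [Algebra k E] [Algebra E N] [Algebra k N]
  [IsScalarTower k E N] [CharZero E] {r : ℕ} {y : Fin r → N} {a : Fin r → E}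

/-- An automorphism of `E` extends to `N`, if `θ a_i = z_i ^ 2`. -/
theorem exists_ext (hy : ∀ i, y i ^ 2 = algebraMap E N (a i))
    (hgen : IntermediateField.adjoin E (Set.range y) = ⊤) (hdeg : Module.finrank E N = 2 ^ r)
    (θ : E ≃ₐ[k] E) (z : Fin r → N) (hz : ∀ i, z i ^ 2 = algebraMap E N (θ (a i))) :
    ∃ σ : N ≃ₐ[k] N, (∀ e, σ (algebraMap E N e) = algebraMap E N (θ e)) ∧ ∀ i, σ (y i) = z i := by
  classical
  obtain ⟨hG, hfd⟩ := isGalois_of hy hgen
  let C := AlgebraicClosure N
  let f : E →+* C := (algebraMap N C).comp ((algebraMap E N).comp (θ : E →+* E))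
  have hf : ∀ e, f e = algebraMap N C (algebraMap E N (θ e)) := fun e => rfl
  obtain ⟨ψ, hψ⟩ : ∃ ψ : N →+* C, ∀ e, ψ (algebraMap E N e) = f e := by
    let _ : Algebra E C := f.toAlgebra
    let ψ : N →ₐ[E] C := IsAlgClosed.lift
    exact ⟨ψ, fun e => ψ.commutes e⟩
  have hpm : ∀ i, ∃ e : ℤˣ, ψ (y i) = ((e : ℤ) : C) * algebraMap N C (z i) := by
    intro i
    have h1 : ψ (y i) ^ 2 = (algebraMap N C (z i)) ^ 2 := by
      rw [← map_pow, hy, hψ, hf, ← map_pow, hz]
    rcases sq_eq_sq_iff_eq_or_eq_neg.mp h1 with h | h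
    · exact ⟨1, by rw [h]; simp⟩
    · exact ⟨-1, by rw [h, Units.val_neg, Units.val_one, Int.cast_neg, Int.cast_one, neg_one_mul]⟩
  choose ε hε using hpm
  obtain ⟨σ0, hσ0⟩ := exists_sign hy hgen hdeg ε
  let ψ' : N →+* C := ψ.comp (σ0 : N →+* N)
  have h1 : ∀ e, ψ' (algebraMap E N e) = algebraMap N C (algebraMap E N (θ e)) := by
    intro e
    change ψ (σ0 (algebraMap E N e)) = _
    rw [AlgEquiv.commutes, hψ, hf]
  have h2 : ∀ i, ψ' (y i) = algebraMap N C (z i) := by
    intro i
    change ψ (σ0 (y i)) = _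
    rw [hσ0, map_mul, hε, map_intCast, ← mul_assoc, ← Int.cast_mul]
    have e : ((ε i : ℤˣ) : ℤ) * ((ε i : ℤˣ) : ℤ) = 1 := by
      rw [← Units.val_mul, Int.units_mul_self, Units.val_one]
    rw [e, Int.cast_one, one_mul]
  have h3 : ∀ w, ∃ v, algebraMap N C v = ψ' w := by
    intro w
    have hw : w ∈ IntermediateField.adjoin E (Set.range y) := by
      rw [hgen]
      exact IntermediateField.mem_top
    induction hw using IntermediateField.adjoin_induction with
    | mem z hz =>
      obtain ⟨i, rfl⟩ := hz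
      exact ⟨z i, (h2 i).symm⟩
    | algebraMap c => exact ⟨_, (h1 c).symm⟩
    | add z w _ _ hz hw =>
      obtain ⟨v1, hv1⟩ := hz
      obtain ⟨v2, hv2⟩ := hw
      exact ⟨v1 + v2, by rw [map_add, map_add, hv1, hv2]⟩
    | inv z _ hz =>
      obtain ⟨v1, hv1⟩ := hz
      exact ⟨v1⁻¹, by rw [map_inv₀, map_inv₀, hv1]⟩
    | mul z w _ _ hz hw =>
      obtain ⟨v1, hv1⟩ := hz
      obtain ⟨v2, hv2⟩ := hw
      exact ⟨v1 * v2, by rw [map_mul, map_mul, hv1, hv2]⟩
  choose g hg using h3
  have hinjC : Function.Injective (algebraMap N C) := (algebraMap N C).injective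
  let σ : N →ₐ[k] N :=
    { toFun := g
      map_one' := hinjC (by rw [hg, map_one, map_one])
      map_mul' := fun u v => hinjC (by rw [hg, map_mul, map_mul, hg, hg])
      map_zero' := hinjC (by rw [hg, map_zero, map_zero])
      map_add' := fun u v => hinjC (by rw [hg, map_add, map_add, hg, hg])
      commutes' := fun c => hinjC (by
        rw [hg, IsScalarTower.algebraMap_apply k E N, h1, AlgEquiv.commutes]) }
  have hσ1 : ∀ e, σ (algebraMap E N e) = algebraMap E N (θ e) := fun e => hinjC (by
    change algebraMap N C (g _) = _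
    rw [hg, h1])
  have hσ2 : ∀ i, σ (y i) = z i := fun i => hinjC (by
    change algebraMap N C (g _) = _
    rw [hg, h2])
  -- surjectivity
  have hsurj : Function.Surjective σ := by
    let A : IntermediateField E N :=
      { carrier := Set.range σ
        mul_mem' := by
          rintro _ _ ⟨u, rfl⟩ ⟨v, rfl⟩
          exact ⟨u * v, map_mul _ _ _⟩
        add_mem' := by
          rintro _ _ ⟨u, rfl⟩ ⟨v, rfl⟩
          exact ⟨u + v, map_add _ _ _⟩
        algebraMap_mem' := fun e => ⟨algebraMap E N (θ.symm e), by rw [hσ1, AlgEquiv.apply_symm_apply]⟩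
        inv_mem' := by
          rintro _ ⟨u, rfl⟩
          exact ⟨u⁻¹, map_inv₀ _ _⟩ }
    have hfr : Module.finrank E A = Module.finrank E N := by
      -- `σ` is a semilinear isomorphism of `N` onto `A`
      have b := Module.finBasis E N
      refine le_antisymm (Submodule.finrank_le (Subalgebra.toSubmodule A.toSubalgebra)) ?_
      have hli : LinearIndependent E (fun i => (⟨σ (b i), ⟨b i, rfl⟩⟩ : A)) := by
        rw [Fintype.linearIndependent_iff]
        intro c hc
        have h4 : ∑ i, algebraMap E N (c i) * σ (b i) = 0 := by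
          have h5 := congrArg (fun w : A => (w : N)) hc
          simp only [AddSubmonoidClass.coe_finsetSum, ZeroMemClass.coe_zero] at h5
          rw [← h5]
          refine Finset.sum_congr rfl fun i _ => ?_
          rw [← Algebra.smul_def]
          rfl
        have h6 : σ (∑ i, algebraMap E N (θ.symm (c i)) * b i) = 0 := by
          rw [map_sum, ← h4]
          refine Finset.sum_congr rfl fun i _ => ?_
          rw [map_mul, hσ1, AlgEquiv.apply_symm_apply]
        have h7 : ∑ i, θ.symm (c i) • b i = 0 := by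
          have h8 := (map_eq_zero_iff σ σ.toRingHom.injective).mp h6
          rw [← h8]
          refine Finset.sum_congr rfl fun i _ => ?_
          rw [Algebra.smul_def]
        have h9 := Fintype.linearIndependent_iff.mp b.linearIndependent _ h7
        intro i
        have h10 := h9 i
        rwa [EmbeddingLike.map_eq_zero_iff] at h10
      have h11 := hli.fintype_card_le_finrank
      rwa [Fintype.card_fin] at h11
    have hA : A = ⊤ := IntermediateField.eq_of_le_of_finrank_eq le_top (by
      rw [hfr, IntermediateField.finrank_top'])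
    intro w
    have hw : w ∈ A := by
      rw [hA]
      exact IntermediateField.mem_top
    exact hw
  exact ⟨AlgEquiv.ofBijective σ ⟨σ.toRingHom.injective, hsurj⟩, hσ1, hσ2⟩

end

end Pool.Agent.Helper98.IR
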