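import Mathlib
import Pool.Agent.Helper98.IR.Multi

/-!
# Permutations of the coordinates on a symmetric trilinear surface
-/

set_option autoImplicit false

namespace Pool.Agent.Helper98.IR

open Polynomial IntermediateField

section

variable {k N : Type*} [Field k] [Field N] [Algebra k N]

lemma exists_alpha {x : Fin 2 → N} (h : AlgebraicIndependent k x) (K : IntermediateField k N)
    (e : adjoin k (Set.range x) = K) :
    ∃ α : K ≃ₐ[k] FractionRing (MvPolynomial (Fin 2) k), ∀ i,
      (α.symm (algebraMap (MvPolynomial (Fin 2) k) (FractionRing (MvPolynomial (Fin 2) k))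
        (MvPolynomial.X i)) : N) = x i := by
  subst e
  refine ⟨h.aevalEquivField.symm, fun i => ?_⟩
  have h1 := h.aevalEquivField_algebraMap_apply_coe (MvPolynomial.X i)
  rw [MvPolynomial.aeval_X] at h1
  exact h1

/-- Two pairs of generators of a purely transcendental extension. -/
theorem exists_theta {u v u' v' : N} (h : AlgebraicIndependent k ![u, v])
    (h' : AlgebraicIndependent k ![u', v']) (he : adjoin k {u', v'} = adjoin k {u, v}) :
    ∃ θ : adjoin k {u, v} ≃ₐ[k] adjoin k {u, v},
      (∀ a : adjoin k {u, v}, (a : N) = u → (θ a : N) = u') ∧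
        ∀ a : adjoin k {u, v}, (a : N) = v → (θ a : N) = v' := by
  have hr : Set.range ![u, v] = {u, v} := by
    rw [Matrix.range_cons, Matrix.range_cons, Matrix.range_empty, Set.union_empty, Set.singleton_union]
  have hr' : Set.range ![u', v'] = {u', v'} := by
    rw [Matrix.range_cons, Matrix.range_cons, Matrix.range_empty, Set.union_empty, Set.singleton_union]
  obtain ⟨α, hα⟩ := exists_alpha h (adjoin k {u, v}) (by rw [hr])
  obtain ⟨β, hβ⟩ := exists_alpha h' (adjoin k {u, v}) (by rw [hr', he])
  have key : ∀ (i : Fin 2) (a : adjoin k {u, v}), (a : N) = (![u, v] : Fin 2 → N) i →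
      ((α.trans β.symm) a : N) = (![u', v'] : Fin 2 → N) i := by
    intro i a ha
    have h1 : a = α.symm (algebraMap (MvPolynomial (Fin 2) k) (FractionRing (MvPolynomial (Fin 2) k))
        (MvPolynomial.X i)) := Subtype.ext (by rw [ha, hα])
    rw [AlgEquiv.trans_apply, h1, AlgEquiv.apply_symm_apply, hβ]
  exact ⟨α.trans β.symm, fun a ha => key 0 a ha, fun a ha => key 1 a ha⟩

/-- The value of a symmetric trilinear form. -/
def tri {R : Type*} [CommRing R] (c : Fin 4 → R) (x : Fin 3 → R) : R :=
  c 0 + c 1 * (x 0 + x 1 + x 2) + c 2 * (x 0 * x 1 + x 0 * x 2 + x 1 * x 2) + c 3 * (x 0 * x 1 * x 2)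

lemma tri_perm {R : Type*} [CommRing R] (c : Fin 4 → R) (x : Fin 3 → R) (π : Equiv.Perm (Fin 3)) :
    tri c (fun i => x (π i)) = tri c x := by
  have e1 : x (π 0) + x (π 1) + x (π 2) = x 0 + x 1 + x 2 := by
    have := Equiv.sum_comp π x
    rwa [Fin.sum_univ_three, Fin.sum_univ_three] at this
  have e3 : x (π 0) * x (π 1) * x (π 2) = x 0 * x 1 * x 2 := by
    have := Equiv.prod_comp π x
    rwa [Fin.prod_univ_three, Fin.prod_univ_three] at this
  have e2 : x (π 0) * x (π 1) + x (π 0) * x (π 2) + x (π 1) * x (π 2) =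
      x 0 * x 1 + x 0 * x 2 + x 1 * x 2 := by
    have key : ∀ i j l : Fin 3, i ≠ j → i ≠ l → j ≠ l →
        x i * x j + x i * x l + x j * x l = x 0 * x 1 + x 0 * x 2 + x 1 * x 2 := by
      intro i j l h1 h2 h3
      fin_cases i <;> fin_cases j <;> fin_cases l <;>
        first
        | exact absurd rfl h1
        | exact absurd rfl h2
        | exact absurd rfl h3
        | (simp only [Fin.mk_zero, Fin.mk_one, Fin.reduceFinMk]; try ring)
    exact key _ _ _ (π.injective.ne (by decide)) (π.injective.ne (by decide)) (π.injective.ne (by decide))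
  unfold tri
  rw [e1, e2, e3]

end

end Pool.Agent.Helper98.IR
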