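import Mathlib
import Pool.Agent.Helper70.KX.Ind
import Pool.Agent.Helper98.IR.Theta

/-!
# Pairs of coordinates on a symmetric trilinear surface
-/

set_option autoImplicit false

namespace Pool.Agent.Helper98.IR

open Polynomial IntermediateField
open Pool.Agent.Helper70.KX (ind_fst ind_snd ind_of)

universe u

variable {k N : Type u} [Field k] [IsAlgClosed k] [Field N] [Algebra k N]

/-- a trilinear relation -/
def Rel3 (c : Fin 4 → k) (u v w : N) : Prop :=
  algebraMap k N (c 0) + algebraMap k N (c 1) * (u + v + w) + algebraMap k N (c 2) * (u * v + u * w + v * w) +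
    algebraMap k N (c 3) * (u * v * w) = 0

omit [IsAlgClosed k] in
lemma ind_two {u v : N} (h : AlgebraicIndependent k ![u, v]) (c : Fin 4 → k)
    (h0 : c 1 ≠ 0 ∨ c 2 ≠ 0 ∨ c 3 ≠ 0) :
    algebraMap k N (c 1) + algebraMap k N (c 2) * (u + v) + algebraMap k N (c 3) * (u * v) ≠ 0 := by
  intro h1
  have h2 : MvPolynomial.aeval ![u, v] (MvPolynomial.C (c 1) + MvPolynomial.C (c 2) * (MvPolynomial.X 0 + MvPolynomial.X 1) +
      MvPolynomial.C (c 3) * (MvPolynomial.X 0 * MvPolynomial.X 1) : MvPolynomial (Fin 2) k) = 0 := by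
    simp only [map_add, map_mul, MvPolynomial.aeval_C, MvPolynomial.aeval_X]
    exact h1
  have h3 := (algebraicIndependent_iff.1 h) _ h2
  have e0 := congrArg (MvPolynomial.eval (![0, 0] : Fin 2 → k)) h3
  have e1 := congrArg (MvPolynomial.eval (![1, 0] : Fin 2 → k)) h3
  have e2 := congrArg (MvPolynomial.eval (![1, 1] : Fin 2 → k)) h3
  simp only [map_add, map_mul, MvPolynomial.eval_C, MvPolynomial.eval_X, map_zero, Matrix.cons_val_zero,
    Matrix.cons_val_one] at e0 e1 e2
  have f1 : c 1 = 0 := by linear_combination e0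
  have f2 : c 2 = 0 := by linear_combination e1 - e0
  have f3 : c 3 = 0 := by
    rw [f1, f2] at e2
    linear_combination e2
  rcases h0 with h0 | h0 | h0
  · exact h0 f1
  · exact h0 f2
  · exact h0 f3

omit [IsAlgClosed k] in
lemma ne_of {u v w : N} {c : Fin 4 → k} (hc : c ≠ 0) (hr : Rel3 c u v w) : c 1 ≠ 0 ∨ c 2 ≠ 0 ∨ c 3 ≠ 0 := by
  by_contra hcon
  push Not at hcon
  obtain ⟨h1, h2, h3⟩ := hcon
  apply hc
  unfold Rel3 at hr
  rw [h1, h2, h3, map_zero, zero_mul, zero_mul, zero_mul, add_zero, add_zero, add_zero, map_eq_zero] at hr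
  funext i
  fin_cases i
  · exact hr
  · exact h1
  · exact h2
  · exact h3

omit [IsAlgClosed k] in
lemma mem_of_rel {u v w : N} {c : Fin 4 → k} (hc : c ≠ 0) (h : AlgebraicIndependent k ![u, v])
    (hr : Rel3 c u v w) : w ∈ adjoin k {u, v} := by
  have h0 := ind_two h c (ne_of hc hr)
  have hu : u ∈ adjoin k {u, v} := subset_adjoin k _ (Or.inl rfl)
  have hv : v ∈ adjoin k {u, v} := subset_adjoin k _ (Or.inr rfl)
  have e : w = -(algebraMap k N (c 0) + algebraMap k N (c 1) * (u + v) + algebraMap k N (c 2) * (u * v)) /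
      (algebraMap k N (c 1) + algebraMap k N (c 2) * (u + v) + algebraMap k N (c 3) * (u * v)) := by
    rw [eq_div_iff h0]
    unfold Rel3 at hr
    linear_combination hr
  rw [e]
  have hk : ∀ a : k, algebraMap k N a ∈ adjoin k {u, v} := fun a => IntermediateField.algebraMap_mem _ a
  exact div_mem (neg_mem (add_mem (add_mem (hk _) (mul_mem (hk _) (add_mem hu hv)))
    (mul_mem (hk _) (mul_mem hu hv)))) (add_mem (add_mem (hk _) (mul_mem (hk _) (add_mem hu hv)))
    (mul_mem (hk _) (mul_mem hu hv)))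

lemma ind_other {u v w : N} {c : Fin 4 → k} (hc : c ≠ 0) (h : AlgebraicIndependent k ![u, v])
    (hr : Rel3 c u v w) (hw : Transcendental k w) : AlgebraicIndependent k ![u, w] := by
  have hu : Transcendental k u := ind_fst h
  have hv : Transcendental (adjoin k {u}) v := ind_snd h
  have hvk : Transcendental k v := by
    intro h1
    exact hv (h1.tower_top (adjoin k {u}))
  refine ind_of hu ?_
  intro hcon
  have hu' : IsAlgebraic (adjoin k {u}) u :=
    isAlgebraic_algebraMap (⟨u, mem_adjoin_simple_self k u⟩ : adjoin k {u})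
  have hk : ∀ a : k, IsAlgebraic (adjoin k {u}) (algebraMap k N a) := by
    intro a
    rw [IsScalarTower.algebraMap_apply k (adjoin k {u}) N]
    exact isAlgebraic_algebraMap _
  obtain ⟨A, hA⟩ : ∃ A, A = algebraMap k N (c 0) + algebraMap k N (c 1) * (u + w) +
    algebraMap k N (c 2) * (u * w) := ⟨_, rfl⟩
  obtain ⟨B, hB⟩ : ∃ B, B = algebraMap k N (c 1) + algebraMap k N (c 2) * (u + w) +
    algebraMap k N (c 3) * (u * w) := ⟨_, rfl⟩
  have hAB : A + B * v = 0 := by
    rw [hA, hB]
    unfold Rel3 at hr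
    linear_combination hr
  have hAa : IsAlgebraic (adjoin k {u}) A := by
    rw [hA]
    exact ((hk _).add ((hk _).mul (hu'.add hcon))).add ((hk _).mul (hu'.mul hcon))
  have hBa : IsAlgebraic (adjoin k {u}) B := by
    rw [hB]
    exact ((hk _).add ((hk _).mul (hu'.add hcon))).add ((hk _).mul (hu'.mul hcon))
  have hB0 : B = 0 := by
    by_contra hB0
    apply hv
    have e : v = -A * B⁻¹ := by
      field_simp
      linear_combination hAB
    rw [e]
    exact hAa.neg.mul hBa.inv
  have hA0 : A = 0 := by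
    rw [hB0, zero_mul, add_zero] at hAB
    exact hAB
  rw [hA] at hA0
  rw [hB] at hB0
  have cast : ∀ a : k, algebraMap k N a = 0 → a = 0 := fun a h => (map_eq_zero _).mp h
  have h12 : c 1 * c 3 - c 2 ^ 2 = 0 := by
    by_contra hd
    have hd' : algebraMap k N (c 1 * c 3 - c 2 ^ 2) ≠ 0 := (_root_.map_ne_zero _).mpr hd
    have hs : u + w = algebraMap k N (-(c 0 * c 3 - c 1 * c 2) / (c 1 * c 3 - c 2 ^ 2)) := by
      rw [map_div₀, eq_div_iff hd']
      simp only [map_sub, map_mul, map_pow, map_neg]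
      linear_combination algebraMap k N (c 3) * hA0 - algebraMap k N (c 2) * hB0
    have hp : u * w = algebraMap k N ((c 0 * c 2 - c 1 ^ 2) / (c 1 * c 3 - c 2 ^ 2)) := by
      rw [map_div₀, eq_div_iff hd']
      simp only [map_sub, map_mul, map_pow]
      linear_combination -(algebraMap k N (c 2) * hA0) + algebraMap k N (c 1) * hB0
    apply hu
    refine ⟨X ^ 2 - C (-(c 0 * c 3 - c 1 * c 2) / (c 1 * c 3 - c 2 ^ 2)) * X +
      C ((c 0 * c 2 - c 1 ^ 2) / (c 1 * c 3 - c 2 ^ 2)), ?_, ?_⟩
    · intro h0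
      have h1 := congrArg (fun p => coeff p 2) h0
      simp at h1
    · simp only [map_add, map_sub, map_mul, map_pow, aeval_X, aeval_C]
      rw [← hs, ← hp]
      ring
  have h03 : c 0 * c 3 - c 1 * c 2 = 0 := by
    apply cast
    simp only [map_sub, map_mul]
    have h1 : algebraMap k N (c 1 * c 3 - c 2 ^ 2) = 0 := by rw [h12, map_zero]
    simp only [map_sub, map_mul, map_pow] at h1
    linear_combination algebraMap k N (c 3) * hA0 - algebraMap k N (c 2) * hB0 - (u + w) * h1
  have h02 : c 0 * c 2 - c 1 ^ 2 = 0 := by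
    apply cast
    simp only [map_sub, map_mul, map_pow]
    have h1 : algebraMap k N (c 1 * c 3 - c 2 ^ 2) = 0 := by rw [h12, map_zero]
    simp only [map_sub, map_mul, map_pow] at h1
    linear_combination algebraMap k N (c 2) * hA0 - algebraMap k N (c 1) * hB0 + (u * w) * h1
  by_cases h3 : c 3 = 0
  · have h2 : c 2 = 0 := by
      rw [h3] at h12
      have : c 2 ^ 2 = 0 := by linear_combination -h12
      exact pow_eq_zero_iff (n := 2) (by norm_num) |>.mp this
    have h1 : c 1 = 0 := by
      rw [h2] at h02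
      have : c 1 ^ 2 = 0 := by linear_combination -h02
      exact pow_eq_zero_iff (n := 2) (by norm_num) |>.mp this
    rcases ne_of hc hr with h | h | h
    · exact h h1
    · exact h h2
    · exact h h3
  · -- a product of three factors
    have hprod : algebraMap k N (c 3) ^ 2 * 0 = (algebraMap k N (c 3) * u + algebraMap k N (c 2)) *
        (algebraMap k N (c 3) * v + algebraMap k N (c 2)) * (algebraMap k N (c 3) * w + algebraMap k N (c 2)) := by
      unfold Rel3 at hr
      rw [← hr]
      have g1 : algebraMap k N (c 1) * algebraMap k N (c 3) = algebraMap k N (c 2) ^ 2 := by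
        rw [← map_mul, ← map_pow, sub_eq_zero.mp h12]
      have g0 : algebraMap k N (c 0) * algebraMap k N (c 3) = algebraMap k N (c 1) * algebraMap k N (c 2) := by
        rw [← map_mul, ← map_mul, sub_eq_zero.mp h03]
      linear_combination (algebraMap k N (c 3) * (u + v + w) + algebraMap k N (c 2)) * g1 + algebraMap k N (c 3) * g0
    rw [mul_zero] at hprod
    have lin : ∀ t : N, algebraMap k N (c 3) * t + algebraMap k N (c 2) = 0 → IsAlgebraic k t := by
      intro t ht
      have h3' : algebraMap k N (c 3) ≠ 0 := (_root_.map_ne_zero _).mpr h3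
      have e : t = algebraMap k N (-(c 2) / c 3) := by
        rw [map_div₀, map_neg, eq_div_iff h3']
        linear_combination ht
      rw [e]
      exact isAlgebraic_algebraMap _
    rcases mul_eq_zero.mp hprod.symm with h4 | h4
    · rcases mul_eq_zero.mp h4 with h5 | h5
      · exact hu (lin u h5)
      · exact hvk (lin v h5)
    · exact hw (lin w h4)

omit [IsAlgClosed k] in
lemma Rel3.swap12 {c : Fin 4 → k} {u v w : N} (h : Rel3 c u v w) : Rel3 c v u w := by
  unfold Rel3 at h ⊢
  linear_combination h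

omit [IsAlgClosed k] in
lemma Rel3.swap23 {c : Fin 4 → k} {u v w : N} (h : Rel3 c u v w) : Rel3 c u w v := by
  unfold Rel3 at h ⊢
  linear_combination h

omit [IsAlgClosed k] in
lemma adjoin_swap (u v : N) : adjoin k {u, v} = adjoin k {v, u} := by
  rw [Set.pair_comm]

omit [IsAlgClosed k] in
lemma ind_swap {u v : N} (h : AlgebraicIndependent k ![u, v]) : AlgebraicIndependent k ![v, u] := by
  have h1 := h.comp (Equiv.swap (0 : Fin 2) 1) (Equiv.swap (0 : Fin 2) 1).injective
  convert h1 using 1
  funext i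
  fin_cases i <;> rfl

/-- All pairs of coordinates are independent and generate the same field. -/
theorem all_pairs {x : Fin 3 → N} {c : Fin 4 → k} (hc : c ≠ 0) (h : AlgebraicIndependent k ![x 0, x 1])
    (hr : Rel3 c (x 0) (x 1) (x 2)) (hw : Transcendental k (x 2)) (i j : Fin 3) (hij : i ≠ j) :
    AlgebraicIndependent k ![x i, x j] ∧ adjoin k {x i, x j} = adjoin k {x 0, x 1} := by
  have m2 : x 2 ∈ adjoin k {x 0, x 1} := mem_of_rel hc h hr
  have h02 : AlgebraicIndependent k ![x 0, x 2] := ind_other hc h hr hw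
  have h12 : AlgebraicIndependent k ![x 1, x 2] := ind_other hc (ind_swap h) hr.swap12 hw
  have m1 : x 1 ∈ adjoin k {x 0, x 2} := mem_of_rel hc h02 hr.swap23
  have m0 : x 0 ∈ adjoin k {x 1, x 2} := mem_of_rel hc h12 hr.swap12.swap23
  have g0 : x 0 ∈ adjoin k {x 0, x 1} := subset_adjoin k _ (Or.inl rfl)
  have g1 : x 1 ∈ adjoin k {x 0, x 1} := subset_adjoin k _ (Or.inr rfl)
  have e02 : adjoin k {x 0, x 2} = adjoin k {x 0, x 1} := by
    refine le_antisymm (adjoin_le_iff.mpr ?_) (adjoin_le_iff.mpr ?_)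
    · rintro z (rfl | hz)
      · exact g0
      · rw [Set.mem_singleton_iff.mp hz]
        exact m2
    · rintro z (rfl | hz)
      · exact subset_adjoin k _ (Or.inl rfl)
      · rw [Set.mem_singleton_iff.mp hz]
        exact m1
  have e12 : adjoin k {x 1, x 2} = adjoin k {x 0, x 1} := by
    refine le_antisymm (adjoin_le_iff.mpr ?_) (adjoin_le_iff.mpr ?_)
    · rintro z (rfl | hz)
      · exact g1
      · rw [Set.mem_singleton_iff.mp hz]
        exact m2
    · rintro z (rfl | hz)
      · exact m0
      · rw [Set.mem_singleton_iff.mp hz]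
        exact subset_adjoin k _ (Or.inl rfl)
  fin_cases i <;> fin_cases j
  · exact absurd rfl hij
  · exact ⟨h, rfl⟩
  · exact ⟨h02, e02⟩
  · exact ⟨ind_swap h, adjoin_swap _ _⟩
  · exact absurd rfl hij
  · exact ⟨h12, e12⟩
  · exact ⟨ind_swap h02, (adjoin_swap _ _).trans e02⟩
  · exact ⟨ind_swap h12, (adjoin_swap _ _).trans e12⟩
  · exact absurd rfl hij

end Pool.Agent.Helper98.IR
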