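import Mathlib
import Pool.Agent.Helper98.IR.Pair

/-!
# The automorphisms `x_i ↦ x_(π i)`, `y_i ↦ ε_i y_(π i)`
-/

set_option autoImplicit false

namespace Pool.Agent.Helper98.IR

open Polynomial IntermediateField
open Pool.Agent.Helper70.KX (ind_fst ind_snd ind_of)

universe u

variable {k N : Type u} [Field k] [IsAlgClosed k] [CharZero k] [Field N] [Algebra k N]

omit [CharZero k] in
lemma mem_range_of_alg {z : N} (hz : IsAlgebraic k z) : ∃ r : k, algebraMap k N r = z :=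
  minpoly.mem_range_of_degree_eq_one k z
    (IsAlgClosed.degree_eq_one_of_irreducible k (minpoly.irreducible hz.isIntegral))

/-- The hypersurface `φ (x_0, x_1, x_2) = 0` in the third power of the curve `y ^ 2 = f (x)`. -/
theorem exists_T3 {x y : Fin 3 → N} {c : Fin 4 → k} {f : k[X]} (hc : c ≠ 0)
    (h : AlgebraicIndependent k ![x 0, x 1]) (hr : Rel3 c (x 0) (x 1) (x 2))
    (hy : ∀ i, y i ^ 2 = aeval (x i) f) (hgen : adjoin k (Set.range x ∪ Set.range y) = ⊤)
    (hdeg : Module.finrank (adjoin k {x 0, x 1}) N = 8) (π : Equiv.Perm (Fin 3)) (ε : Fin 3 → ℤˣ) :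
    ∃ σ : N ≃ₐ[k] N, (∀ i, σ (x i) = x (π i)) ∧ ∀ i, σ (y i) = ((ε i : ℤ) : N) * y (π i) := by
  classical
  obtain ⟨E, hE⟩ : ∃ E, E = adjoin k {x 0, x 1} := ⟨_, rfl⟩
  have m0 : x 0 ∈ E := by rw [hE]; exact subset_adjoin k _ (Or.inl rfl)
  have m1 : x 1 ∈ E := by rw [hE]; exact subset_adjoin k _ (Or.inr rfl)
  have m2 : x 2 ∈ E := by rw [hE]; exact mem_of_rel hc h hr
  have mx : ∀ i, x i ∈ E := by
    intro i
    fin_cases i
    · exact m0
    · exact m1
    · exact m2
  let xE : Fin 3 → E := fun i => ⟨x i, mx i⟩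
  have hxE : ∀ i, ((xE i : E) : N) = x i := fun i => rfl
  have hv : ∀ i, (algebraMap E N) (aeval (xE i) f) = aeval (x i) f := by
    intro i
    rw [← aeval_algebraMap_apply]
    rfl
  have hyE : ∀ i, y i ^ 2 = algebraMap E N (aeval (xE i) f) := fun i => by rw [hv, hy]
  have hgenE : adjoin E (Set.range y) = ⊤ := by
    apply restrictScalars_injective k
    rw [restrictScalars_top, eq_top_iff, ← hgen, adjoin_le_iff]
    rintro z (⟨i, rfl⟩ | ⟨i, rfl⟩)
    · exact (adjoin E (Set.range y)).algebraMap_mem (xE i)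
    · exact subset_adjoin E _ ⟨i, rfl⟩
  have hdegE : Module.finrank E N = 2 ^ 3 := by
    rw [hE, hdeg]
    norm_num
  have z0 : CharZero E := charZero_of_injective_algebraMap (algebraMap k E).injective
  -- `x 2` is transcendental
  have ht : Transcendental k (x 2) := by
    intro hcon
    obtain ⟨r, hr2⟩ := mem_range_of_alg hcon
    have h1 : IsAlgebraic k (y 2) := by
      have h2 : IsAlgebraic k (y 2 ^ 2) := by
        rw [hy, ← hr2, aeval_algebraMap_apply]
        exact isAlgebraic_algebraMap _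
      exact h2.of_pow (by norm_num)
    obtain ⟨s, hs⟩ := mem_range_of_alg h1
    obtain ⟨σ, -, hσ⟩ := exists_sign' hyE hgenE hdegE (fun _ => -1)
    apply hσ 2 rfl
    rw [← hs, IsScalarTower.algebraMap_apply k E N, AlgEquiv.commutes]
  have hall := all_pairs hc h hr ht
  have hπ : ∀ i j : Fin 3, i ≠ j → π i ≠ π j := fun i j hij => π.injective.ne hij
  obtain ⟨hi, he⟩ := hall (π 0) (π 1) (hπ _ _ (by decide))
  obtain ⟨θ0, hθ0, hθ1⟩ := exists_theta h hi he
  obtain ⟨θ, hθ⟩ : ∃ θ : E ≃ₐ[k] E, (∀ a : E, (a : N) = x 0 → (θ a : N) = x (π 0)) ∧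
      ∀ a : E, (a : N) = x 1 → (θ a : N) = x (π 1) := by
    subst hE
    exact ⟨θ0, hθ0, hθ1⟩
  have t0 : θ (xE 0) = xE (π 0) := Subtype.ext (hθ.1 _ rfl)
  have t1 : θ (xE 1) = xE (π 1) := Subtype.ext (hθ.2 _ rfl)
  have hrE : Rel3 c (xE 0) (xE 1) (xE 2) := by
    apply (algebraMap E N).injective
    unfold Rel3 at hr
    simp only [map_add, map_mul, map_zero, ← IsScalarTower.algebraMap_apply]
    exact hr
  have hrp : Rel3 c (x (π 0)) (x (π 1)) (x (π 2)) := by
    have e := tri_perm (fun i => algebraMap k N (c i)) x π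
    have e' : tri (fun i => algebraMap k N (c i)) x = 0 := hr
    rw [e'] at e
    exact e
  have t2 : θ (xE 2) = xE (π 2) := by
    have h0 := ind_two hi c (ne_of hc hr)
    have h1 := congrArg (fun a : E => ((θ a : E) : N)) hrE
    simp only [map_add, map_mul, map_zero, AlgEquiv.commutes, t0, t1] at h1
    have h2 : algebraMap k N (c 0) + algebraMap k N (c 1) * (x (π 0) + x (π 1) + (θ (xE 2) : N)) +
        algebraMap k N (c 2) * (x (π 0) * x (π 1) + x (π 0) * (θ (xE 2) : N) + x (π 1) * (θ (xE 2) : N)) +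
        algebraMap k N (c 3) * (x (π 0) * x (π 1) * (θ (xE 2) : N)) = 0 := h1
    apply Subtype.ext
    unfold Rel3 at hrp
    have h3 : (algebraMap k N (c 1) + algebraMap k N (c 2) * (x (π 0) + x (π 1)) +
        algebraMap k N (c 3) * (x (π 0) * x (π 1))) * ((θ (xE 2) : N) - x (π 2)) = 0 := by
      linear_combination h2 - hrp
    exact sub_eq_zero.mp ((mul_eq_zero.mp h3).resolve_left h0)
  have tx : ∀ i, θ (xE i) = xE (π i) := by
    intro i
    fin_cases i
    · exact t0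
    · exact t1
    · exact t2
  obtain ⟨σ, hσ1, hσ2⟩ := exists_ext hyE hgenE hdegE θ (fun i => ((ε i : ℤ) : N) * y (π i)) (by
    intro i
    rw [← AlgEquiv.coe_toAlgHom, ← aeval_algHom_apply]
    change _ = algebraMap E N (aeval (θ (xE i)) f)
    rw [tx, hv, mul_pow, hy]
    have e : (((ε i : ℤ) : N)) ^ 2 = 1 := by
      rw [← Int.cast_pow, ← Units.val_pow_eq_pow_val, Int.units_sq, Units.val_one, Int.cast_one]
    rw [e, one_mul])
  refine ⟨σ, fun i => ?_, hσ2⟩
  have h1 := hσ1 (xE i)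
  rw [tx] at h1
  exact h1

/-- The double cover `v ^ 2 = ψ (x_0, x_1)` of the square of the curve `y ^ 2 = f (x)`. -/
theorem exists_T2 {x y : Fin 2 → N} {v : N} {c : Fin 3 → k} {f : k[X]}
    (h : AlgebraicIndependent k ![x 0, x 1]) (hy : ∀ i, y i ^ 2 = aeval (x i) f)
    (hv : v ^ 2 = algebraMap k N (c 0) + algebraMap k N (c 1) * (x 0 + x 1) + algebraMap k N (c 2) * (x 0 * x 1))
    (hgen : adjoin k (Set.range x ∪ Set.range y ∪ {v}) = ⊤)
    (hdeg : Module.finrank (adjoin k {x 0, x 1}) N = 8) (π : Equiv.Perm (Fin 2)) (ε : Fin 2 → ℤˣ) (δ : ℤˣ) :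
    ∃ σ : N ≃ₐ[k] N, (∀ i, σ (x i) = x (π i)) ∧ (∀ i, σ (y i) = ((ε i : ℤ) : N) * y (π i)) ∧
      σ v = ((δ : ℤ) : N) * v := by
  classical
  obtain ⟨E, hE⟩ : ∃ E, E = adjoin k {x 0, x 1} := ⟨_, rfl⟩
  have m0 : x 0 ∈ E := by rw [hE]; exact subset_adjoin k _ (Or.inl rfl)
  have m1 : x 1 ∈ E := by rw [hE]; exact subset_adjoin k _ (Or.inr rfl)
  have mx : ∀ i, x i ∈ E := by
    intro i
    fin_cases i
    · exact m0
    · exact m1
  let xE : Fin 2 → E := fun i => ⟨x i, mx i⟩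
  have hfv : ∀ i, (algebraMap E N) (aeval (xE i) f) = aeval (x i) f := by
    intro i
    rw [← aeval_algebraMap_apply]
    rfl
  let ps : E := algebraMap k E (c 0) + algebraMap k E (c 1) * (xE 0 + xE 1) + algebraMap k E (c 2) * (xE 0 * xE 1)
  have hps : algebraMap E N ps = algebraMap k N (c 0) + algebraMap k N (c 1) * (x 0 + x 1) +
      algebraMap k N (c 2) * (x 0 * x 1) := by
    simp only [ps, map_add, map_mul, ← IsScalarTower.algebraMap_apply]
    rfl
  let Y : Fin 3 → N := ![y 0, y 1, v]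
  have hY : ∀ i, Y i ^ 2 = algebraMap E N ((![aeval (xE 0) f, aeval (xE 1) f, ps] : Fin 3 → E) i) := by
    intro i
    fin_cases i
    · change y 0 ^ 2 = algebraMap E N (aeval (xE 0) f)
      rw [hfv, hy]
    · change y 1 ^ 2 = algebraMap E N (aeval (xE 1) f)
      rw [hfv, hy]
    · change v ^ 2 = algebraMap E N ps
      rw [hps, hv]
  have hgenE : adjoin E (Set.range Y) = ⊤ := by
    apply restrictScalars_injective k
    rw [restrictScalars_top, eq_top_iff, ← hgen, adjoin_le_iff]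
    rintro z ((⟨i, rfl⟩ | ⟨i, rfl⟩) | hz)
    · exact (adjoin E (Set.range Y)).algebraMap_mem (xE i)
    · fin_cases i
      · exact subset_adjoin E _ ⟨0, rfl⟩
      · exact subset_adjoin E _ ⟨1, rfl⟩
    · rw [Set.mem_singleton_iff.mp hz]
      exact subset_adjoin E _ ⟨2, rfl⟩
  have hdegE : Module.finrank E N = 2 ^ 3 := by
    rw [hE, hdeg]
    norm_num
  have z0 : CharZero E := charZero_of_injective_algebraMap (algebraMap k E).injective
  have hij : AlgebraicIndependent k ![x (π 0), x (π 1)] ∧ adjoin k {x (π 0), x (π 1)} = adjoin k {x 0, x 1} := by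
    have h2 : (π 0 = 0 ∧ π 1 = 1) ∨ (π 0 = 1 ∧ π 1 = 0) := by
      revert π
      decide
    rcases h2 with ⟨e0, e1⟩ | ⟨e0, e1⟩
    · rw [e0, e1]
      exact ⟨h, rfl⟩
    · rw [e0, e1]
      exact ⟨ind_swap h, adjoin_swap _ _⟩
  obtain ⟨hi, he⟩ := hij
  obtain ⟨θ0, hθ0, hθ1⟩ := exists_theta h hi he
  obtain ⟨θ, hθ⟩ : ∃ θ : E ≃ₐ[k] E, (∀ a : E, (a : N) = x 0 → (θ a : N) = x (π 0)) ∧
      ∀ a : E, (a : N) = x 1 → (θ a : N) = x (π 1) := by
    subst hE
    exact ⟨θ0, hθ0, hθ1⟩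
  have t0 : θ (xE 0) = xE (π 0) := Subtype.ext (hθ.1 _ rfl)
  have t1 : θ (xE 1) = xE (π 1) := Subtype.ext (hθ.2 _ rfl)
  have tx : ∀ i, θ (xE i) = xE (π i) := by
    intro i
    fin_cases i
    · exact t0
    · exact t1
  have tps : θ ps = ps := by
    simp only [ps, map_add, map_mul, AlgEquiv.commutes, t0, t1]
    have e1 : xE (π 0) + xE (π 1) = xE 0 + xE 1 := by
      have := Equiv.sum_comp π xE
      rwa [Fin.sum_univ_two, Fin.sum_univ_two] at this
    have e2 : xE (π 0) * xE (π 1) = xE 0 * xE 1 := by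
      have := Equiv.prod_comp π xE
      rwa [Fin.prod_univ_two, Fin.prod_univ_two] at this
    rw [e1, e2]
  have sq1 : ∀ e : ℤˣ, ((e : ℤ) : N) ^ 2 = 1 := by
    intro e
    rw [← Int.cast_pow, ← Units.val_pow_eq_pow_val, Int.units_sq, Units.val_one, Int.cast_one]
  have tf : ∀ i, θ (aeval (xE i) f) = aeval (xE (π i)) f := by
    intro i
    rw [← AlgEquiv.coe_toAlgHom, ← aeval_algHom_apply]
    change aeval (θ (xE i)) f = _
    rw [tx]
  obtain ⟨σ, hσ1, hσ2⟩ := exists_ext hY hgenE hdegE θ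
    (![((ε 0 : ℤ) : N) * y (π 0), ((ε 1 : ℤ) : N) * y (π 1), ((δ : ℤ) : N) * v]) (by
    intro i
    fin_cases i
    · change (((ε 0 : ℤ) : N) * y (π 0)) ^ 2 = algebraMap E N (θ (aeval (xE 0) f))
      rw [tf, hfv, mul_pow, hy, sq1, one_mul]
    · change (((ε 1 : ℤ) : N) * y (π 1)) ^ 2 = algebraMap E N (θ (aeval (xE 1) f))
      rw [tf, hfv, mul_pow, hy, sq1, one_mul]
    · change (((δ : ℤ) : N) * v) ^ 2 = algebraMap E N (θ ps)
      rw [tps, hps, mul_pow, hv, sq1, one_mul])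
  refine ⟨σ, fun i => ?_, fun i => ?_, hσ2 2⟩
  · have h1 := hσ1 (xE i)
    rw [tx] at h1
    exact h1
  · fin_cases i
    · exact hσ2 0
    · exact hσ2 1

/-- An automorphism is determined by the images of the coordinates. -/
theorem ext_gen {S : Set N} (hgen : adjoin k S = ⊤) {σ τ : N ≃ₐ[k] N} (h : ∀ z ∈ S, σ z = τ z) : σ = τ := by
  apply AlgEquiv.ext
  intro z
  have hz : z ∈ adjoin k S := by
    rw [hgen]
    exact mem_top
  induction hz using adjoin_induction with
  | mem z hz => exact h z hz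
  | algebraMap c => rw [AlgEquiv.commutes, AlgEquiv.commutes]
  | add z w _ _ hz hw => rw [map_add, map_add, hz, hw]
  | inv z _ hz => rw [map_inv₀, map_inv₀, hz]
  | mul z w _ _ hz hw => rw [map_mul, map_mul, hz, hw]

end Pool.Agent.Helper98.IR
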