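import Mathlib
import Pool.Agent.Helper9.NS
import Pool.Agent.Helper98.IR.Aut
import Pool.Agent.Helper79.B4.Defs

/-!
# IRR, the automorphisms of the two types of surfaces (blocks A3, A2 of B4)
-/

set_option linter.unusedSectionVars false

namespace Pool.Agent.Helper79.B4

open Polynomial IntermediateField Pool.Agent.Helper98.IR

universe u

/-- BLOCK A3. -/
theorem a3 : StmtA3.{u} := by
  intro k N _ _ _ _ _ D π ε
  have hf : ∀ i, D.y i ^ 2 = aeval (D.x i) (∏ j, (X - C (D.a j)) : k[X]) := by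
    intro i
    rw [D.hy i, map_prod]
    simp
  have hr : Rel3 D.c (D.x 0) (D.x 1) (D.x 2) := D.hφ
  obtain ⟨σ, h1, h2⟩ := exists_T3 D.hc D.hx hr hf D.hgen D.hdeg π ε
  exact ⟨σ, fun i => ⟨h1 i, h2 i⟩⟩

/-- BLOCK A2. -/
theorem a2 : StmtA2.{u} := by
  intro k N _ _ _ _ _ D π ε δ
  have hf : ∀ i, D.y i ^ 2 = aeval (D.x i) (∏ j, (X - C (D.a j)) : k[X]) := by
    intro i
    rw [D.hy i, map_prod]
    simp
  obtain ⟨σ, h1, h2, h3⟩ := exists_T2 D.hx hf D.hw D.hgen D.hdeg π ε δ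
  exact ⟨σ, fun i => ⟨h1 i, h2 i⟩, h3⟩

end Pool.Agent.Helper79.B4
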